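import Pool.Agent.H631.Lim
import Pool.Agent.H631.FinalSum
import Pool.Agent.H631.LinAlg

/-! For the bounded compactly supported potential `V = i 1_{[0,1)^d}` the weighted eigenvalue sums
`S_{γ,σ}(V, ħ)` are not `O(ħ^{-d})`, for every `γ > 0` and `0 ≤ σ ≤ d/2`. -/

open MeasureTheory Filter Topology ENNReal
open scoped Laplacian

namespace Pool.Agent.Results.MP_c84763_mp.CubeWell

noncomputable section

/-- Euclidean space of dimension `d`. -/
abbrev EE (d : ℕ) := EuclideanSpace ℝ (Fin d)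

/-- The Hilbert space `L²(α; ℂ)` of classes of square integrable functions. -/
def LTwo (α : Type) [MeasureSpace α] : Type := Lp ℂ 2 (volume : Measure α)

instance instLTwoGroup (α : Type) [MeasureSpace α] : AddCommGroup (LTwo α) :=
  inferInstanceAs (AddCommGroup (Lp ℂ 2 (volume : Measure α)))

instance instLTwoModule (α : Type) [MeasureSpace α] : Module ℂ (LTwo α) :=
  inferInstanceAs (Module ℂ (Lp ℂ 2 (volume : Measure α)))

/-- A function representing a class in `L²(α; ℂ)`. -/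
def LTwo.fn {α : Type} [MeasureSpace α] (u : LTwo α) : α → ℂ :=
  AEEqFun.cast (Subtype.val (p := fun f => f ∈ Lp ℂ 2 (volume : Measure α)) u)

/-- The Hilbert space `L²(ℝ^d; ℂ)`. -/
def L2 (d : ℕ) : Type := LTwo (EE d)

instance instL2Group (d : ℕ) : AddCommGroup (L2 d) := instLTwoGroup (EE d)

instance instL2Module (d : ℕ) : Module ℂ (L2 d) := instLTwoModule (EE d)

/-- A function on `ℝ^d` representing a class in `L²(ℝ^d; ℂ)`. -/
def L2.fn {d : ℕ} (u : L2 d) : EE d → ℂ := LTwo.fn (α := EE d) u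

/-- The graph of the Schrodinger operator `H = -ħ²Δ + V` in `L²(ℝ^d)` for a bounded potential `V`:
`u` is in the domain and `H u = g` iff `-ħ²Δu + Vu = g` in the sense of distributions. -/
def SchrRel {d : ℕ} (ħ : ℝ) (V : EE d → ℂ) (u g : L2 d) : Prop :=
  ∀ φ : EE d → ℂ, ContDiff ℝ (⊤ : ℕ∞) φ → HasCompactSupport φ →
    ∫ x, u.fn x * (-((ħ : ℂ) ^ 2) * (Δ φ) x + V x * φ x) = ∫ x, g.fn x * φ x

/-- The root space (generalised eigenspace) of a linear relation `R` at `E`: all `v` which start a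
chain `v = f 0, f 1, ..., f n = 0` with `(R - E) f j = f (j + 1)`. -/
def rootSp {X : Type} [AddCommGroup X] [Module ℂ X] (R : X → X → Prop) (E : ℂ) : Submodule ℂ X :=
  Submodule.span ℂ {v | ∃ (n : ℕ) (f : ℕ → X), f 0 = v ∧ f n = 0 ∧
    ∀ j, j < n → R (f j) (E • f j + f (j + 1))}

/-- The algebraic multiplicity of `E` as an eigenvalue of `-ħ²Δ + V` (zero if `E` is not an
eigenvalue): the dimension of the root space. -/
def algMult {d : ℕ} (ħ : ℝ) (V : EE d → ℂ) (E : ℂ) : ℕ∞ :=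
  Cardinal.toENat (Module.rank ℂ (rootSp (SchrRel ħ V) E))

/-- The half line `[0, ∞)` in the complex plane. -/
def halfLine : Set ℂ := {z | 0 ≤ z.re ∧ z.im = 0}

open Classical in
/-- `S_{γ,σ}(V, ħ)`: the sum of `|E|^{-σ} dist(E,[0,∞))^{γ+σ}` over all eigenvalues
`E ∈ ℂ ∖ [0,∞)` of `-ħ²Δ + V`, counted with algebraic multiplicity. -/
def eigSum {d : ℕ} (γ σ ħ : ℝ) (V : EE d → ℂ) : ℝ≥0∞ :=
  ∑' E : ℂ, if E ∈ halfLine then 0 else
    (algMult ħ V E : ℝ≥0∞) *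
      ENNReal.ofReal (‖E‖ ^ (-σ) * (Metric.infDist E halfLine) ^ (γ + σ))

/-! ### The potential and the transfer to the definitions used in the proof -/

theorem algMult_eq {d : ℕ} (ħ : ℝ) (V : EE d → ℂ) (E : ℂ) :
    algMult ħ V E = CE.algMult ħ V E := rfl

theorem meas_cube (d : ℕ) : MeasurableSet {x : EE d | ∀ i, 0 ≤ x i ∧ x i < 1} := by
  have : {x : EE d | ∀ i, 0 ≤ x i ∧ x i < 1} = ⋂ i, {x : EE d | 0 ≤ x i ∧ x i < 1} := by
    ext x; simp
  rw [this]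
  refine MeasurableSet.iInter fun i => ?_
  have hc : Measurable (fun x : EE d => x i) := by fun_prop
  exact (hc measurableSet_Ici).inter (hc measurableSet_Iio)

theorem Vpot_meas (d : ℕ) : Measurable (CE.Vpot d) := measurable_const.indicator (meas_cube d)

theorem Vpot_bdd (d : ℕ) (x : EE d) : ‖CE.Vpot d x‖ ≤ 1 := by
  unfold CE.Vpot
  by_cases h : x ∈ {x : EE d | ∀ i, 0 ≤ x i ∧ x i < 1}
  · rw [Set.indicator_of_mem h]; simp
  · rw [Set.indicator_of_notMem h]; simp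

theorem Vpot_supp (d : ℕ) : HasCompactSupport (CE.Vpot d) := by
  refine HasCompactSupport.of_support_subset_isCompact (K := Metric.closedBall 0 (Real.sqrt d))
    (isCompact_closedBall _ _) fun x hx => ?_
  have hx' : x ∈ {x : EE d | ∀ i, 0 ≤ x i ∧ x i < 1} := by
    by_contra h
    exact hx (Set.indicator_of_notMem h _)
  rw [mem_closedBall_zero_iff, EuclideanSpace.norm_eq]
  refine Real.sqrt_le_sqrt ?_
  calc ∑ i, ‖x i‖ ^ 2 ≤ ∑ _i : Fin d, (1 : ℝ) := by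
        refine Finset.sum_le_sum fun i _ => ?_
        have := hx' i
        rw [Real.norm_eq_abs, sq_abs]
        nlinarith [this.1, this.2]
    _ = d := by simp

theorem Vpot_memLp (d : ℕ) (p : ℝ≥0∞) : MemLp (CE.Vpot d) p volume := by
  have h1 : MemLp (CE.Vpot d) ⊤ volume :=
    memLp_top_of_bound (Vpot_meas d).aestronglyMeasurable 1 (Eventually.of_forall (Vpot_bdd d))
  refine MemLp.mono_exponent_of_measure_support_ne_top h1 (s := Metric.closedBall 0 (Real.sqrt d))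
    (fun x hx => ?_) (measure_closedBall_lt_top).ne le_top
  by_contra h0
  have hx' : x ∈ tsupport (CE.Vpot d) := subset_tsupport _ h0
  exact hx (by
    have hK : tsupport (CE.Vpot d) ⊆ Metric.closedBall 0 (Real.sqrt d) := by
      refine closure_minimal (fun y hy => ?_) Metric.isClosed_closedBall
      have hy' : y ∈ {x : EE d | ∀ i, 0 ≤ x i ∧ x i < 1} := by
        by_contra h
        exact hy (Set.indicator_of_notMem h _)
      rw [mem_closedBall_zero_iff, EuclideanSpace.norm_eq]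
      refine Real.sqrt_le_sqrt ?_
      calc ∑ i, ‖y i‖ ^ 2 ≤ ∑ _i : Fin d, (1 : ℝ) := by
            refine Finset.sum_le_sum fun i _ => ?_
            have := hy' i
            rw [Real.norm_eq_abs, sq_abs]
            nlinarith [this.1, this.2]
        _ = d := by simp
    exact hK hx')

/-- many eigenvalues with imaginary part at least `1/2` -/
theorem many_eig (d : ℕ) (hd : 1 ≤ d) : ∃ c : ℝ, 0 < c ∧ ∃ n₀ : ℕ, ∀ n : ℕ, n₀ ≤ n →
    ∃ h₀ : ℝ, 0 < h₀ ∧ ∀ ħ : ℝ, 0 < ħ → ħ < h₀ → ∀ N : ℕ,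
      (N : ℝ) ≤ c * (Real.log n) ^ ((d : ℝ) / 2) * (ħ⁻¹) ^ d →
      ∃ S : Finset ℂ, (∀ E ∈ S, 0 ≤ E.re ∧ E.re ≤ Real.log n ∧ 1/2 ≤ E.im ∧ E.im ≤ 1) ∧
        (N : ℕ∞) ≤ ∑ E ∈ S, CE.algMult ħ (CE.Vpot d) E := by
  obtain ⟨c, hc, n₀, h⟩ := CE.count_fam (d := d) hd
  refine ⟨c, hc, n₀, fun n hn => ?_⟩
  obtain ⟨h₀, hh₀, h⟩ := h n hn
  refine ⟨h₀, hh₀, fun ħ hħ hlt N hN => ?_⟩
  obtain ⟨m₀, h⟩ := h ħ hħ hlt
  set K := Real.log n / (2 * Real.pi) with hK
  have hl : 0 ≤ Real.log n := Real.log_natCast_nonneg n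
  have hK0 : 0 ≤ K := div_nonneg hl (by positivity)
  obtain ⟨v, t, hv, hrel, hb⟩ := CE.lim_exists d N ħ K hħ hK0 ⟨m₀, fun k hk => by
    refine CE.disc_exists (2 ^ k) N ħ K fun E hE hEb => ?_
    exact hN.trans (h (2 ^ k) (hk.trans Nat.lt_two_pow_self.le) E hE hEb)⟩
  obtain ⟨S, hS1, hS2⟩ := CE.mult_sum (CE.SchrRel ħ (CE.Vpot d)) (fun a b a' b' h h' => CE.schr_add ħ a b a' b' h h')
    (fun c a b h => CE.schr_smul ħ c a b h) N v hv.linearIndependent t hrel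
  refine ⟨S, fun E hE => ?_, hS2⟩
  obtain ⟨k, rfl⟩ := hS1 E hE
  obtain ⟨h1, h2, h3, h4⟩ := hb k
  refine ⟨h1, h2.trans ?_, h3, h4⟩
  rw [hK, ← mul_div_assoc, div_le_iff₀ (by positivity)]
  nlinarith [Real.pi_gt_three]

/-- **Main theorem.** For every dimension `d ≥ 2` there is one bounded, compactly supported
potential `V` such that for all `γ > 0` and `0 ≤ σ ≤ d/2` one has `V ∈ L^{γ+d/2}` and
`ħ^d S_{γ,σ}(V, ħ) → ∞` as `ħ → 0+`. -/
theorem result (d : ℕ) (hd : 2 ≤ d) :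
    ∃ V : EE d → ℂ, Measurable V ∧ (∀ x, ‖V x‖ ≤ 1) ∧ HasCompactSupport V ∧
      ∀ γ σ : ℝ, 0 < γ → 0 ≤ σ → σ ≤ (d : ℝ) / 2 →
        MemLp V (ENNReal.ofReal (γ + (d : ℝ) / 2)) volume ∧
        Tendsto (fun ħ : ℝ => ENNReal.ofReal (ħ ^ d) * eigSum γ σ ħ V) (𝓝[>] 0) (𝓝 ⊤) := by
  refine ⟨CE.Vpot d, Vpot_meas d, Vpot_bdd d, Vpot_supp d, fun γ σ hγ hσ0 hσ => ⟨Vpot_memLp d _, ?_⟩⟩
  obtain ⟨c, hc, n₀, h⟩ := many_eig d (by omega)
  exact CE.final_sum d (by omega) (fun ħ E => CE.algMult ħ (CE.Vpot d) E) c hc n₀ h γ σ hγ hσ0 hσ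

end

end Pool.Agent.Results.MP_c84763_mp.CubeWell
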